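import Mathlib
import Pool.Agent.H.MP_8be476_pr.B

namespace Pool.Agent.Results.MP_8be476_pr.Faster

open MeasureTheory Finset Filter Topology

/-- Number of children `i :: v` of the word `v` with index `a v` (one extra child at the root). -/
def ch (a : List ℕ → ℕ) (v : List ℕ) : ℕ := if v = [] then a v + 1 else a v

/-- Conductance of the edge from `v` to its parent `v.tail`. -/
def ce (c : ℕ → ℕ → ℝ) (a : List ℕ → ℕ) (v : List ℕ) : ℝ := c (a v.tail) (a v)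

/-- Total conductance at `v`. -/
def tot (c : ℕ → ℕ → ℝ) (a : List ℕ → ℕ) (v : List ℕ) : ℝ :=
  (if v = [] then 0 else ce c a v) + ∑ i ∈ range (ch a v), ce c a (i :: v)

/-- Transition probabilities of the walk. -/
noncomputable def tp (c : ℕ → ℕ → ℝ) (a : List ℕ → ℕ) (x y : List ℕ) : ℝ :=
  if x ≠ [] ∧ y = x.tail then ce c a x / tot c a x
  else if ∃ i < ch a x, y = i :: x then ce c a y / tot c a x else 0

theorem result : ∃ (p : Measure ℕ) (_ : IsProbabilityMeasure p) (c : ℕ → ℕ → ℝ) (s : ℝ),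
    p {0} = 0 ∧ p {1} < 1 ∧ (∀ k m, 0 < c k m ∧ c k m ≤ 1 ∧ c k m = c m k) ∧
    (∃ k m, p {k} ≠ 0 ∧ p {m} ≠ 0 ∧ c k k ≠ c k m) ∧
    ∑' k : ℕ, p.real {k} * (((k : ℝ) - 1) / (k + 1)) < s ∧
    ∀ (Ω : Type) [MeasurableSpace Ω] (P : Measure Ω) [IsProbabilityMeasure P]
      (A : Ω → List ℕ → ℕ) (X : ℕ → Ω → List ℕ), Measurable A →
      (∀ n v, MeasurableSet {ω | X n ω = v}) →
      (∀ n (γ : ℕ → List ℕ) B, MeasurableSet B → P (A ⁻¹' B ∩ {ω | ∀ i ≤ n, X i ω = γ i}) =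
        ∫⁻ a in B, (if γ 0 = [] then ∏ i ∈ range n, ENNReal.ofReal (tp c a (γ i) (γ (i + 1))) else 0)
          ∂Measure.infinitePi fun _ => p) →
      (∀ n : ℕ, s * n - 1 ≤ ∫ ω, ((X n ω).length : ℝ) ∂P) ∧
      ∀ v : ℝ, (∀ᵐ ω ∂P, Tendsto (fun n => ((X n ω).length : ℝ) / n) atTop (𝓝 v)) → s ≤ v :=
  Pool.Agent.H.MP_8be476_pr.main

end Pool.Agent.Results.MP_8be476_pr.Faster
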